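import Mathlib

/-!
# 2-recursive triangular choice multigraphs are optimal

For all `m ≥ 3` and all real `α > 1` the maximum of `∑ α ^ (multiplicity)` over all triangular choice
multigraphs on `m` vertices is attained by a 2-recursive one.

Proof. Let `N x y` be the set consisting of `x`, `y` and all `z` for which the triple `x, y, z` does
not select the pair `x y`. Give every vertex `v` a positive weight `c v` and consider
`W = ∑ c x * c y * exp (- l * (total weight of N x y))`, where `l = log α`; for `c = 1` this is the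
weight of the multigraph up to a factor.

* (`cherry`) In an optimal multigraph the pair `x y` with the lightest set `N x y` is selected by all
  triples that contain it: otherwise some triple `x, y, z` selects, say, `x z`, and to select `x y`
  instead gives a strictly larger sum.
* (`W_clone`) For such a pair one of the vertices `x`, `y` may be replaced by a clone of the
  other one (a convexity argument).
* (`W_ext`) Two clones `x`, `y` may be merged to one vertex of weight `c x + c y`, and
  conversely; this reduces the number of vertices by one and preserves 2-recursive multigraphs.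
-/

set_option autoImplicit false
set_option linter.unusedSectionVars false

namespace Pool.Agent.Results.MP_6dfbfb_co.TwoRecursiveOptimal

open Finset

section internal

variable {V : Type} [Fintype V] [DecidableEq V]

/-- The chosen vertex (the vertex left out by the selected pair) belongs to the triple. -/
def Valid (f : Finset V → V) : Prop := ∀ T : Finset V, T.card = 3 → f T ∈ T

/-- `N f S x y`: the vertices `z` of `S` that are `x` or `y` or for which the triple `x, y, z` does not
select the pair `x y`. -/
def N (f : Finset V → V) (S : Finset V) (x y : V) : Finset V :=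
  S.filter fun z => z = x ∨ z = y ∨ f {x, y, z} ≠ z

theorem mem_N {f : Finset V → V} {S : Finset V} {x y z : V} :
    z ∈ N f S x y ↔ z ∈ S ∧ (z = x ∨ z = y ∨ f {x, y, z} ≠ z) := by
  simp [N]

theorem N_comm (f : Finset V → V) (S : Finset V) (x y : V) : N f S x y = N f S y x := by
  ext z
  rw [mem_N, mem_N, Finset.insert_comm x y {z}]
  tauto

/-- The contribution of an ordered pair. -/
noncomputable def term (l : ℝ) (f : Finset V → V) (S : Finset V) (c : V → ℝ) (p : V × V) : ℝ :=
  c p.1 * c p.2 * Real.exp (-(l * ∑ z ∈ N f S p.1 p.2, c z))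

theorem term_comm (l : ℝ) (f : Finset V → V) (S : Finset V) (c : V → ℝ) (x y : V) :
    term l f S c (x, y) = term l f S c (y, x) := by
  simp only [term]
  rw [N_comm, mul_comm (c x)]

/-- The weighted sum over the ordered pairs of distinct elements of `S`. -/
noncomputable def W (l : ℝ) (f : Finset V → V) (S : Finset V) (c : V → ℝ) : ℝ :=
  ∑ p ∈ S.offDiag, term l f S c p

theorem sum_offDiag_insert (t : V × V → ℝ) (A : Finset V) (x : V) (hx : x ∉ A) :
    ∑ p ∈ (insert x A).offDiag, t p = ∑ p ∈ A.offDiag, t p + ∑ z ∈ A, (t (x, z) + t (z, x)) := by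
  rw [Finset.offDiag_insert hx, Finset.sum_union, Finset.sum_union]
  · rw [Finset.sum_product, Finset.sum_product_right]
    simp [Finset.sum_add_distrib, add_assoc]
  · rw [Finset.disjoint_left]
    rintro ⟨a, b⟩ h1 h2
    simp only [mem_offDiag, mem_product, mem_singleton] at h1 h2
    exact hx (h2.1 ▸ h1.1)
  · rw [Finset.disjoint_left]
    rintro ⟨a, b⟩ h1 h2
    simp only [mem_union, mem_offDiag, mem_product, mem_singleton] at h1 h2
    rcases h1 with h1 | h1
    · exact hx (h2.2 ▸ h1.2.1)
    · exact hx (h1.1 ▸ h2.1)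

theorem W_insert (l : ℝ) (f : Finset V → V) (S A : Finset V) (c : V → ℝ) (x : V) (hx : x ∉ A) :
    ∑ p ∈ (insert x A).offDiag, term l f S c p
      = ∑ p ∈ A.offDiag, term l f S c p + 2 * ∑ z ∈ A, term l f S c (x, z) := by
  rw [sum_offDiag_insert _ _ _ hx, Finset.mul_sum]
  congr 1
  apply Finset.sum_congr rfl
  intro z _
  rw [term_comm l f S c z x]
  ring

/-- One switch strictly increases the sum. -/
theorem switch {l : ℝ} (hl : 0 < l) {f : Finset V → V} (hf : Valid f) {S : Finset V} {c : V → ℝ}
    (hc : ∀ v, 0 < c v) (hopt : ∀ g, Valid g → W l g S c ≤ W l f S c) {x y z : V}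
    (hx : x ∈ S) (hy : y ∈ S) (hz : z ∈ S) (hxy : x ≠ y) (hxz : x ≠ z) (hyz : y ≠ z)
    (hn : ∑ u ∈ N f S x y, c u ≤ ∑ u ∈ N f S x z, c u) (hfy : f {x, y, z} = y) : False := by
  classical
  set T : Finset V := {x, y, z} with hT
  set g : Finset V → V := Function.update f T z with hg
  have hTc : T.card = 3 := by
    rw [hT]; exact Finset.card_eq_three.2 ⟨x, y, z, hxy, hxz, hyz, rfl⟩
  have hgT : g T = z := by rw [hg]; simp
  have hgne : ∀ U, U ≠ T → g U = f U := fun U hU => by rw [hg]; simp [Function.update_of_ne hU]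
  have hgv : Valid g := by
    intro U hU
    by_cases h : U = T
    · rw [h, hgT, hT]; simp
    · rw [hgne U h]; exact hf U hU
  have e1 : {x, z, y} = T := by
    rw [hT]; ext u; simp; tauto
  -- the changed neighbourhoods
  have hNxy : N g S x y = (N f S x y).erase z := by
    ext u
    rw [mem_erase, mem_N, mem_N]
    by_cases huz : u = z
    · subst huz
      rw [← hT, hgT]
      simp only [ne_eq, not_true_eq_false, false_and, iff_false, not_and, or_false]
      rintro - (h | h)
      · exact hxz h.symm
      · exact hyz h.symm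
    · by_cases hux : u = x
      · simp [hux, hxz]
      by_cases huy : u = y
      · simp [huy, hyz]
      have : ({x, y, u} : Finset V) ≠ T := by
        intro h
        have : u ∈ T := h ▸ (by simp)
        rw [hT] at this
        simp at this
        tauto
      rw [hgne _ this]
      tauto
  have hNxz : N g S x z = insert y (N f S x z) := by
    ext u
    rw [mem_insert, mem_N, mem_N]
    by_cases huy : u = y
    · subst huy
      rw [e1, hgT]
      simp only [true_or, iff_true]
      exact ⟨hy, Or.inr (Or.inr (Ne.symm hyz))⟩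
    · by_cases hux : u = x
      · simp [hux, hxy]
      by_cases huz : u = z
      · simp [huz, Ne.symm hyz]
      have : ({x, z, u} : Finset V) ≠ T := by
        intro h
        have : u ∈ T := h ▸ (by simp)
        rw [hT] at this
        simp at this
        tauto
      rw [hgne _ this]
      tauto
  have hzN : z ∈ N f S x y := by
    rw [mem_N]
    exact ⟨hz, Or.inr (Or.inr (by rw [← hT, hfy]; exact hyz))⟩
  have hyN : y ∉ N f S x z := by
    rw [mem_N, e1, hfy]
    rintro ⟨-, h | h | h⟩
    · exact hxy h.symm
    · exact hyz h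
    · exact h rfl
  have hNyz : ∀ u, (u ∈ N g S y z ↔ u ∈ N f S y z) := by
    intro u
    rw [mem_N, mem_N]
    by_cases hux : u = x
    · subst hux
      have e2 : ({y, z, u} : Finset V) = T := by
        rw [hT]; ext v; simp; tauto
      rw [e2, hgT, hfy]
      have := Ne.symm hxz
      have := Ne.symm hxy
      tauto
    by_cases huy : u = y
    · simp [huy]
    by_cases huz : u = z
    · simp [huz]
    have : ({y, z, u} : Finset V) ≠ T := by
      intro h
      have : u ∈ T := h ▸ (by simp)
      rw [hT] at this
      simp at this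
      tauto
    rw [hgne _ this]
  -- all the other pairs do not change
  have hother : ∀ a b : V, a ≠ b → (a, b) ≠ (x, y) → (a, b) ≠ (y, x) → (a, b) ≠ (x, z) →
      (a, b) ≠ (z, x) → N g S a b = N f S a b := by
    intro a b hab h1 h2 h3 h4
    by_cases hyz' : (a = y ∧ b = z) ∨ (a = z ∧ b = y)
    · rcases hyz' with ⟨rfl, rfl⟩ | ⟨rfl, rfl⟩
      · ext u; exact hNyz u
      · rw [N_comm g, N_comm f]; ext u; exact hNyz u
    ext u
    rw [mem_N, mem_N]
    by_cases hua : u = a
    · simp [hua]
    by_cases hub : u = b
    · simp [hub]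
    have : ({a, b, u} : Finset V) ≠ T := by
      intro h
      have ha : a ∈ T := h ▸ (by simp)
      have hb : b ∈ T := h ▸ (by simp)
      rw [hT] at ha hb
      simp only [mem_insert, mem_singleton] at ha hb
      simp only [ne_eq, Prod.mk.injEq] at h1 h2 h3 h4
      rcases ha with ha | ha | ha <;> rcases hb with hb | hb | hb <;>
        first
        | exact hab (ha.trans hb.symm)
        | exact h1 ⟨ha, hb⟩
        | exact h2 ⟨ha, hb⟩
        | exact h3 ⟨ha, hb⟩
        | exact h4 ⟨ha, hb⟩
        | exact hyz' (Or.inl ⟨ha, hb⟩)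
        | exact hyz' (Or.inr ⟨ha, hb⟩)
    rw [hgne _ this]
  have key : W l g S c - W l f S c
      = 2 * (term l g S c (x, y) - term l f S c (x, y)) +
        2 * (term l g S c (x, z) - term l f S c (x, z)) := by
    rw [W, W, ← Finset.sum_sub_distrib]
    have hsub : ({(x, y), (y, x), (x, z), (z, x)} : Finset (V × V)) ⊆ S.offDiag := by
      intro p hp
      simp only [mem_insert, mem_singleton] at hp
      rcases hp with rfl | rfl | rfl | rfl <;> simp [mem_offDiag, hx, hy, hz, hxy, hxz, hxy.symm, hxz.symm]
    rw [← Finset.sum_subset hsub]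
    · rw [Finset.sum_insert, Finset.sum_insert, Finset.sum_insert, Finset.sum_singleton]
      · rw [term_comm l g S c y x, term_comm l f S c y x, term_comm l g S c z x,
          term_comm l f S c z x]
        ring
      · simp [hxz, hxz.symm]
      · simp [hxy.symm, hyz, hxz]
      · simp [hxy, hyz, hxz]
    · rintro ⟨a, b⟩ hp hq
      simp only [mem_insert, mem_singleton, not_or] at hq
      rw [mem_offDiag] at hp
      simp only [term]
      rw [hother a b hp.2.2 hq.1 hq.2.1 hq.2.2.1 hq.2.2.2]
      ring
  have hle := hopt g hgv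
  have t1 : term l g S c (x, y) = c x * c y * (Real.exp (-(l * ∑ u ∈ N f S x y, c u)) * Real.exp (l * c z)) := by
    simp only [term]
    rw [hNxy, ← Real.exp_add]
    congr 2
    have := Finset.sum_erase_add (N f S x y) c hzN
    rw [← this]
    ring
  have t2 : term l g S c (x, z) = c x * c z * (Real.exp (-(l * ∑ u ∈ N f S x z, c u)) * Real.exp (-(l * c y))) := by
    simp only [term]
    rw [hNxz, Finset.sum_insert hyN, ← Real.exp_add]
    congr 2
    ring
  have hz1 : l * c z + 1 < Real.exp (l * c z) :=
    Real.add_one_lt_exp (mul_pos hl (hc z)).ne'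
  have hy1 : -(l * c y) + 1 < Real.exp (-(l * c y)) :=
    Real.add_one_lt_exp (neg_ne_zero.2 (mul_pos hl (hc y)).ne')
  set E1 := Real.exp (-(l * ∑ u ∈ N f S x y, c u)) with hE1
  set E2 := Real.exp (-(l * ∑ u ∈ N f S x z, c u)) with hE2
  have hE : E2 ≤ E1 := by
    rw [hE1, hE2]
    apply Real.exp_le_exp.2
    have := mul_le_mul_of_nonneg_left hn hl.le
    linarith
  have hE1p : 0 < E1 := Real.exp_pos _
  have hE2p : 0 < E2 := Real.exp_pos _
  have s1 : term l f S c (x, y) = c x * c y * E1 := rfl
  have s2 : term l f S c (x, z) = c x * c z * E2 := rfl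
  rw [t1, t2, s1, s2] at key
  have hxp := hc x
  have hyp := hc y
  have hzp := hc z
  have p1 : c x * c y * E1 * (l * c z) < c x * c y * E1 * (Real.exp (l * c z) - 1) := by
    apply mul_lt_mul_of_pos_left _ (by positivity)
    linarith
  have p2 : c x * c z * E2 * (1 - Real.exp (-(l * c y))) < c x * c z * E2 * (l * c y) := by
    apply mul_lt_mul_of_pos_left _ (by positivity)
    linarith
  have p3 : c x * c z * E2 * (l * c y) ≤ c x * c z * E1 * (l * c y) := by
    have : 0 ≤ c x * c z * (l * c y) := by positivity
    nlinarith [mul_le_mul_of_nonneg_left hE this]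
  nlinarith

theorem cherry {l : ℝ} (hl : 0 < l) {f : Finset V → V} (hf : Valid f) {S : Finset V} {c : V → ℝ}
    (hc : ∀ v, 0 < c v) (hopt : ∀ g, Valid g → W l g S c ≤ W l f S c) (hS : 2 ≤ S.card) :
    ∃ x ∈ S, ∃ y ∈ S, x ≠ y ∧ ∀ z ∈ S, z ≠ x → z ≠ y → f {x, y, z} = z := by
  classical
  have hne : S.offDiag.Nonempty := by
    obtain ⟨a, ha, b, hb, hab⟩ := Finset.one_lt_card.1 (show 1 < S.card by omega)
    exact ⟨(a, b), by simp [mem_offDiag, ha, hb, hab]⟩
  obtain ⟨⟨x, y⟩, hp, hmin⟩ := Finset.exists_min_image S.offDiag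
    (fun p => ∑ z ∈ N f S p.1 p.2, c z) hne
  rw [mem_offDiag] at hp
  obtain ⟨hx, hy, hxy⟩ := hp
  simp only at hx hy hxy
  refine ⟨x, hx, y, hy, hxy, ?_⟩
  intro z hz hzx hzy
  by_contra hcon
  have hmem : f {x, y, z} ∈ ({x, y, z} : Finset V) :=
    hf _ (Finset.card_eq_three.2 ⟨x, y, z, hxy, hzx.symm, hzy.symm, rfl⟩)
  simp only [mem_insert, mem_singleton] at hmem
  rcases hmem with h | h | h
  · -- f = x : use the pair (y, x)
    refine switch hl hf hc hopt hy hx hz hxy.symm hzy.symm hzx.symm ?_ ?_
    · rw [N_comm f S y x]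
      exact hmin (y, z) (by simp [mem_offDiag, hy, hz, hzy.symm])
    · rw [Finset.insert_comm y x {z}, h]
  · exact switch hl hf hc hopt hx hy hz hxy hzx.symm hzy.symm
      (hmin (x, z) (by simp [mem_offDiag, hx, hz, hzx.symm])) h
  · exact hcon h


/-! ### Clones -/

/-- Weight of `x` and `y` together, put on `x`. -/
noncomputable def cc (c : V → ℝ) (x y : V) : V → ℝ := Function.update c x (c x + c y)

/-- Add `y` to a set that contains `x`. -/
def lift (x y : V) (A : Finset V) : Finset V := if x ∈ A then insert y A else A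

theorem sum_cc (c : V → ℝ) {x y : V} (hxy : x ≠ y) {A : Finset V} (hy : y ∉ A) :
    ∑ u ∈ A, cc c x y u = ∑ u ∈ lift x y A, c u := by
  by_cases hx : x ∈ A
  · rw [lift, if_pos hx, Finset.sum_insert hy, ← Finset.add_sum_erase A _ hx,
      ← Finset.add_sum_erase A c hx]
    have : ∑ u ∈ A.erase x, cc c x y u = ∑ u ∈ A.erase x, c u := by
      apply Finset.sum_congr rfl
      intro u hu
      rw [cc, Function.update_of_ne (Finset.ne_of_mem_erase hu)]
    rw [this]
    simp only [cc, Function.update_self]
    ring
  · rw [lift, if_neg hx]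
    apply Finset.sum_congr rfl
    intro u hu
    rw [cc, Function.update_of_ne]
    rintro rfl
    exact hx hu

/-- Make `y` a clone of `x`. -/
noncomputable def ext (x y : V) (f : Finset V → V) : Finset V → V := fun T =>
  if y ∈ T then
    (if h : ∃ z, T = {x, y, z} ∧ z ≠ x ∧ z ≠ y then h.choose
      else Equiv.swap x y (f (T.image (Equiv.swap x y))))
  else f T

theorem ext_of_notMem {x y : V} {f : Finset V → V} {T : Finset V} (h : y ∉ T) :
    ext x y f T = f T := by
  rw [ext, if_neg h]

theorem ext_both {x y z : V} {f : Finset V → V} (hx : z ≠ x) (hy : z ≠ y) :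
    ext x y f {x, y, z} = z := by
  have h : ∃ w, ({x, y, z} : Finset V) = {x, y, w} ∧ w ≠ x ∧ w ≠ y := ⟨z, rfl, hx, hy⟩
  rw [ext, if_pos (by simp), dif_pos h]
  have h2 := h.choose_spec
  have : z ∈ ({x, y, h.choose} : Finset V) := by rw [← h2.1]; simp
  simp only [mem_insert, mem_singleton] at this
  tauto

theorem ext_clone {x y : V} {f : Finset V → V} {T : Finset V} (hy : y ∈ T) (hx : x ∉ T) :
    ext x y f T = Equiv.swap x y (f (T.image (Equiv.swap x y))) := by
  rw [ext, if_pos hy, dif_neg]
  rintro ⟨z, rfl, -, -⟩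
  simp at hx

theorem swap_fix {x y u : V} (hx : u ≠ x) (hy : u ≠ y) : Equiv.swap x y u = u :=
  Equiv.swap_apply_of_ne_of_ne hx hy

theorem ext_valid {x y : V} (hxy : x ≠ y) {f : Finset V → V} (hf : Valid f) :
    Valid (ext x y f) := by
  intro T hT
  by_cases hy : y ∈ T
  · by_cases hx : x ∈ T
    · have h2 : 0 < ((T.erase x).erase y).card := by
        rw [Finset.card_erase_of_mem (by simp [hy, hxy.symm]), Finset.card_erase_of_mem hx, hT]
        norm_num
      obtain ⟨z, hz⟩ := Finset.card_pos.1 h2
      simp only [mem_erase] at hz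
      have hTe : T = {x, y, z} := by
        symm
        apply Finset.eq_of_subset_of_card_le
        · intro u hu
          simp only [mem_insert, mem_singleton] at hu
          rcases hu with rfl | rfl | rfl
          · exact hx
          · exact hy
          · exact hz.2.2
        · rw [hT, Finset.card_eq_three.2 ⟨x, y, z, hxy, Ne.symm hz.2.1, Ne.symm hz.1, rfl⟩]
      rw [hTe, ext_both hz.2.1 hz.1]
      simp
    · rw [ext_clone hy hx]
      have h1 : (T.image (Equiv.swap x y)).card = 3 := by
        rw [Finset.card_image_of_injective _ (Equiv.injective _), hT]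
      have h2 := hf _ h1
      rw [mem_image] at h2
      obtain ⟨u, hu, hu2⟩ := h2
      rw [← hu2, Equiv.swap_apply_self]
      exact hu
  · rw [ext_of_notMem hy]
    exact hf T hT

theorem clone_valid (x y : V) {f : Finset V → V} (hf : Valid f) :
    Valid (fun T => Equiv.swap x y (f (T.image (Equiv.swap x y)))) := by
  intro T hT
  have h1 : (T.image (Equiv.swap x y)).card = 3 := by
    rw [Finset.card_image_of_injective _ (Equiv.injective _), hT]
  have h2 := hf _ h1
  rw [mem_image] at h2
  obtain ⟨u, hu, hu2⟩ := h2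
  show Equiv.swap x y (f (T.image (Equiv.swap x y))) ∈ T
  rw [← hu2, Equiv.swap_apply_self]
  exact hu

theorem image3 (x y a b d : V) : ({a, b, d} : Finset V).image (Equiv.swap x y)
    = {Equiv.swap x y a, Equiv.swap x y b, Equiv.swap x y d} := by
  simp [Finset.image_insert]

/-- Neighbourhoods in the extension. -/
theorem N_ext_xz {x y z : V} (hxy : x ≠ y) {f : Finset V → V} {R : Finset V} (hxR : x ∉ R)
    (hyR : y ∉ R) (hz : z ∈ R) :
    N (ext x y f) (insert y (insert x R)) x z = insert y (N f (insert x R) x z) := by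
  have hzx : z ≠ x := fun h => hxR (h ▸ hz)
  have hzy : z ≠ y := fun h => hyR (h ▸ hz)
  ext u
  rw [mem_insert, mem_N, mem_N]
  by_cases huy : u = y
  · subst huy
    have : ({x, z, u} : Finset V) = {x, u, z} := by ext v; simp; tauto
    rw [this, ext_both hzx hzy]
    simp [hzy]
  · by_cases hux : u = x
    · simp [hux]
    by_cases huz : u = z
    · simp [huz, hz]
    rw [ext_of_notMem (by simp [hxy.symm, Ne.symm hzy, Ne.symm huy])]
    simp [huy]

theorem N_ext_yz {x y z : V} (hxy : x ≠ y) {f : Finset V → V} {R : Finset V} (hxR : x ∉ R)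
    (hyR : y ∉ R) (hz : z ∈ R) :
    N (ext x y f) (insert y (insert x R)) y z = insert y (N f (insert x R) x z) := by
  have hzx : z ≠ x := fun h => hxR (h ▸ hz)
  have hzy : z ≠ y := fun h => hyR (h ▸ hz)
  ext u
  rw [mem_insert, mem_N, mem_N]
  by_cases huy : u = y
  · simp [huy]
  by_cases hux : u = x
  · subst hux
    have : ({y, z, u} : Finset V) = {u, y, z} := by ext v; simp; tauto
    rw [this, ext_both hzx hzy]
    simp [hzx]
  by_cases huz : u = z
  · simp [huz, hz]
  have h1 : x ∉ ({y, z, u} : Finset V) := by simp [hxy, Ne.symm hzx, Ne.symm hux]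
  rw [ext_clone (by simp) h1, image3, Equiv.swap_apply_right, swap_fix hzx hzy, swap_fix hux huy]
  have h2 : (Equiv.swap x y (f {x, z, u}) ≠ u) ↔ f {x, z, u} ≠ u := by
    rw [not_iff_not, Equiv.swap_apply_eq_iff, swap_fix hux huy]
  rw [h2]
  simp [huy, hux]

theorem N_ext_zw {x y z w : V} (hxy : x ≠ y) {f : Finset V → V} {R : Finset V} (hxR : x ∉ R)
    (hyR : y ∉ R) (hz : z ∈ R) (hw : w ∈ R) :
    N (ext x y f) (insert y (insert x R)) z w = lift x y (N f (insert x R) z w) := by
  have hzx : z ≠ x := fun h => hxR (h ▸ hz)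
  have hzy : z ≠ y := fun h => hyR (h ▸ hz)
  have hwx : w ≠ x := fun h => hxR (h ▸ hw)
  have hwy : w ≠ y := fun h => hyR (h ▸ hw)
  have hmx : x ∈ N f (insert x R) z w ↔ f {z, w, x} ≠ x := by
    rw [mem_N]
    simp [Ne.symm hzx, Ne.symm hwx]
  ext u
  by_cases huy : u = y
  · subst huy
    have h1 : x ∉ ({z, w, u} : Finset V) := by simp [hxy, Ne.symm hzx, Ne.symm hwx]
    rw [mem_N, ext_clone (by simp) h1, image3, Equiv.swap_apply_right, swap_fix hzx hzy,
      swap_fix hwx hwy, ne_eq, Equiv.swap_apply_eq_iff, Equiv.swap_apply_right, lift]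
    have h2 : u ∉ N f (insert x R) z w := by
      rw [mem_N]
      simp [hxy.symm, hyR]
    by_cases h3 : x ∈ N f (insert x R) z w
    · rw [if_pos h3]
      have := hmx.1 h3
      simp [this]
    · rw [if_neg h3]
      have h4 : f {z, w, x} = x := by
        by_contra h; exact h3 (hmx.2 h)
      simp [h2, h4, Ne.symm hzy, Ne.symm hwy]
  · have h0 : (u ∈ lift x y (N f (insert x R) z w)) ↔ u ∈ N f (insert x R) z w := by
      rw [lift]
      split_ifs <;> simp [huy]
    rw [h0, mem_N, mem_N, ext_of_notMem (by simp [Ne.symm hzy, Ne.symm hwy, Ne.symm huy])]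
    simp [huy]

theorem N_ext_xy {x y : V} {f : Finset V → V} {R : Finset V} :
    N (ext x y f) (insert y (insert x R)) y x = {x, y} := by
  ext u
  rw [mem_N]
  by_cases hux : u = x
  · simp [hux]
  by_cases huy : u = y
  · simp [huy]
  have : ({y, x, u} : Finset V) = {x, y, u} := by ext v; simp; tauto
  rw [this, ext_both hux huy]
  simp [hux, huy]

/-- The sum of the extension. -/
theorem W_ext (l : ℝ) {x y : V} (hxy : x ≠ y) (f : Finset V → V) {R : Finset V} (hxR : x ∉ R)
    (hyR : y ∉ R) (c : V → ℝ) :
    W l (ext x y f) (insert y (insert x R)) c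
      = 2 * (c x * c y * Real.exp (-(l * (c x + c y)))) + W l f (insert x R) (cc c x y) := by
  have hyS : y ∉ insert x R := by simp [hxy.symm, hyR]
  have hNy : ∀ a b, y ∉ N f (insert x R) a b := fun a b h => hyS (mem_N.1 h).1
  rw [W, W_insert _ _ _ _ _ _ hyS, W_insert _ _ _ _ _ _ hxR, Finset.sum_insert hxR]
  rw [W, W_insert _ _ _ _ _ _ hxR]
  have h1 : term l (ext x y f) (insert y (insert x R)) c (y, x)
      = c x * c y * Real.exp (-(l * (c x + c y))) := by
    simp only [term]
    rw [N_ext_xy, Finset.sum_pair hxy]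
    ring
  have h2 : ∀ z ∈ R, term l (ext x y f) (insert y (insert x R)) c (x, z)
      + term l (ext x y f) (insert y (insert x R)) c (y, z)
      = term l f (insert x R) (cc c x y) (x, z) := by
    intro z hz
    have hzx : z ≠ x := fun h => hxR (h ▸ hz)
    have hxN : x ∈ N f (insert x R) x z := by rw [mem_N]; simp
    simp only [term]
    rw [N_ext_xz hxy hxR hyR hz, N_ext_yz hxy hxR hyR hz, sum_cc c hxy (hNy _ _), lift,
      if_pos hxN]
    have e1 : cc c x y x = c x + c y := by simp [cc]
    have e2 : cc c x y z = c z := by rw [cc, Function.update_of_ne hzx]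
    rw [e1, e2]
    ring
  have h3 : ∑ p ∈ R.offDiag, term l (ext x y f) (insert y (insert x R)) c p
      = ∑ p ∈ R.offDiag, term l f (insert x R) (cc c x y) p := by
    apply Finset.sum_congr rfl
    rintro ⟨z, w⟩ hp
    rw [mem_offDiag] at hp
    obtain ⟨hz, hw, -⟩ := hp
    simp only at hz hw
    have hzx : z ≠ x := fun h => hxR (h ▸ hz)
    have hwx : w ≠ x := fun h => hxR (h ▸ hw)
    simp only [term]
    rw [N_ext_zw hxy hxR hyR hz hw, sum_cc c hxy (hNy _ _)]
    have e1 : cc c x y z = c z := by rw [cc, Function.update_of_ne hzx]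
    have e2 : cc c x y w = c w := by rw [cc, Function.update_of_ne hwx]
    rw [e1, e2]
  rw [h1, h3]
  have h4 := Finset.sum_congr rfl h2
  rw [Finset.sum_add_distrib] at h4
  rw [← h4]
  ring

/-! ### Comparison of a cherry with its two clonings -/

/-- The choice function in which `x` and `y` are interchanged. -/
def conj (x y : V) (f : Finset V → V) : Finset V → V :=
  fun T => Equiv.swap x y (f (T.image (Equiv.swap x y)))

theorem sum_cc_erase (c : V → ℝ) (x y : V) (A : Finset V) :
    ∑ u ∈ A, cc c x y u = ∑ u ∈ A.erase x, c u + if x ∈ A then c x + c y else 0 := by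
  have h0 : ∑ u ∈ A.erase x, cc c x y u = ∑ u ∈ A.erase x, c u := by
    apply Finset.sum_congr rfl
    intro u hu
    rw [cc, Function.update_of_ne (Finset.ne_of_mem_erase hu)]
  by_cases hx : x ∈ A
  · rw [if_pos hx, ← h0, ← Finset.add_sum_erase A _ hx]
    simp only [cc, Function.update_self]
    ring
  · rw [if_neg hx, ← h0, Finset.erase_eq_of_notMem hx]
    ring

theorem sum_erase2 (c : V → ℝ) {x y : V} (hxy : x ≠ y) (A : Finset V) :
    ∑ u ∈ A, c u = ∑ u ∈ (A.erase x).erase y, c u + (if x ∈ A then c x else 0)
      + if y ∈ A then c y else 0 := by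
  have h1 : ∑ u ∈ A, c u = ∑ u ∈ A.erase x, c u + if x ∈ A then c x else 0 := by
    by_cases hx : x ∈ A
    · rw [if_pos hx, ← Finset.add_sum_erase A _ hx]; ring
    · rw [if_neg hx, Finset.erase_eq_of_notMem hx]; ring
  have h2 : ∑ u ∈ A.erase x, c u = ∑ u ∈ (A.erase x).erase y, c u + if y ∈ A then c y else 0 := by
    by_cases hy : y ∈ A
    · rw [if_pos hy, ← Finset.add_sum_erase (A.erase x) c (Finset.mem_erase.2 ⟨hxy.symm, hy⟩)]
      ring
    · rw [if_neg hy, Finset.erase_eq_of_notMem (fun h => hy (Finset.mem_of_mem_erase h) :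
        y ∉ A.erase x)]
      ring
  rw [h1, h2]
  ring

theorem jensen {l a b n n1 n2 : ℝ} (ha : 0 ≤ a) (hb : 0 ≤ b)
    (h : a * n1 + b * n2 = (a + b) * n) :
    (a + b) * Real.exp (-(l * n)) ≤ a * Real.exp (-(l * n1)) + b * Real.exp (-(l * n2)) := by
  have e : ∀ m : ℝ, Real.exp (-(l * m)) = Real.exp (-(l * n)) * Real.exp (-(l * (m - n))) := by
    intro m
    rw [← Real.exp_add]
    congr 1
    ring
  have h1 : -(l * (n1 - n)) + 1 ≤ Real.exp (-(l * (n1 - n))) := Real.add_one_le_exp _
  have h2 : -(l * (n2 - n)) + 1 ≤ Real.exp (-(l * (n2 - n))) := Real.add_one_le_exp _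
  rw [e n1, e n2]
  have hp : 0 < Real.exp (-(l * n)) := Real.exp_pos _
  have h3 := mul_le_mul_of_nonneg_left h1 ha
  have h4 := mul_le_mul_of_nonneg_left h2 hb
  have h5 : a + b ≤ a * Real.exp (-(l * (n1 - n))) + b * Real.exp (-(l * (n2 - n))) := by
    have : a * (-(l * (n1 - n)) + 1) + b * (-(l * (n2 - n)) + 1) = a + b := by
      have : a * (n1 - n) + b * (n2 - n) = 0 := by linarith
      linear_combination (-l) * this
    linarith
  have h6 := mul_le_mul_of_nonneg_left h5 hp.le
  linarith

theorem W_clone {l : ℝ} {x y : V} (hxy : x ≠ y) {f : Finset V → V}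
    {R : Finset V} (hxR : x ∉ R) (hyR : y ∉ R) {c : V → ℝ} (hc : ∀ v, 0 < c v)
    (hch : ∀ z ∈ R, f {x, y, z} = z) :
    (c x + c y) * (W l f (insert y (insert x R)) c
      - 2 * (c x * c y * Real.exp (-(l * (c x + c y)))))
      ≤ c x * W l f (insert x R) (cc c x y) + c y * W l (conj x y f) (insert x R) (cc c x y) := by
  have hyS : y ∉ insert x R := by simp [hxy.symm, hyR]
  have hNy : ∀ (g : Finset V → V) (a b : V), y ∉ N g (insert x R) a b :=
    fun g a b h => hyS (mem_N.1 h).1
  have e1 : cc c x y x = c x + c y := by simp [cc]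
  rw [W, W_insert _ _ _ _ _ _ hyS, W_insert _ _ _ _ _ _ hxR, Finset.sum_insert hxR]
  rw [W, W_insert _ _ _ _ _ _ hxR, W, W_insert _ _ _ _ _ _ hxR]
  have h1 : term l f (insert y (insert x R)) c (y, x)
      = c x * c y * Real.exp (-(l * (c x + c y))) := by
    simp only [term]
    have : N f (insert y (insert x R)) y x = {x, y} := by
      ext u
      rw [mem_N]
      by_cases hux : u = x
      · simp [hux]
      by_cases huy : u = y
      · simp [huy]
      simp only [mem_insert, mem_singleton, hux, huy, false_or, iff_false, not_and, not_not]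
      intro hu
      rw [Finset.insert_comm]
      exact hch u hu
    rw [this, Finset.sum_pair hxy]
    ring
  have h2 : ∀ z ∈ R, term l f (insert x R) (cc c x y) (x, z)
      = (c x + c y) * (c z * Real.exp (-(l * ∑ u ∈ N f (insert y (insert x R)) x z, c u))) := by
    intro z hz
    have hzx : z ≠ x := fun h => hxR (h ▸ hz)
    have hzy : z ≠ y := fun h => hyR (h ▸ hz)
    have hN : N f (insert y (insert x R)) x z = insert y (N f (insert x R) x z) := by
      ext u
      rw [mem_insert, mem_N, mem_N]
      by_cases huy : u = y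
      · subst huy
        have : ({x, z, u} : Finset V) = {x, u, z} := by ext v; simp; tauto
        rw [this, hch z hz]
        simp [hzy]
      · simp [huy]
    have hxN : x ∈ N f (insert x R) x z := by rw [mem_N]; simp
    simp only [term]
    rw [hN, sum_cc c hxy (hNy _ _ _), lift, if_pos hxN, e1]
    have e2 : cc c x y z = c z := by rw [cc, Function.update_of_ne hzx]
    rw [e2]
    ring
  have h3 : ∀ z ∈ R, term l (conj x y f) (insert x R) (cc c x y) (x, z)
      = (c x + c y) * (c z * Real.exp (-(l * ∑ u ∈ N f (insert y (insert x R)) y z, c u))) := by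
    intro z hz
    have hzx : z ≠ x := fun h => hxR (h ▸ hz)
    have hzy : z ≠ y := fun h => hyR (h ▸ hz)
    have hN : N f (insert y (insert x R)) y z = insert y (N (conj x y f) (insert x R) x z) := by
      ext u
      rw [mem_insert, mem_N, mem_N]
      by_cases huy : u = y
      · simp [huy]
      by_cases hux : u = x
      · subst hux
        have : ({y, z, u} : Finset V) = {u, y, z} := by ext v; simp; tauto
        rw [this, hch z hz]
        simp [hzx]
      · rw [conj, image3, Equiv.swap_apply_left, swap_fix hzx hzy, swap_fix hux huy, ne_eq, ne_eq,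
          Equiv.swap_apply_eq_iff, swap_fix hux huy]
        simp [huy, hux]
    have hxN : x ∈ N (conj x y f) (insert x R) x z := by rw [mem_N]; simp
    simp only [term]
    rw [hN, sum_cc c hxy (hNy _ _ _), lift, if_pos hxN, e1]
    have e2 : cc c x y z = c z := by rw [cc, Function.update_of_ne hzx]
    rw [e2]
    ring
  have h4 : ∀ p ∈ R.offDiag, (c x + c y) * term l f (insert y (insert x R)) c p
      ≤ c x * term l f (insert x R) (cc c x y) p
        + c y * term l (conj x y f) (insert x R) (cc c x y) p := by
    rintro ⟨z, w⟩ hp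
    rw [mem_offDiag] at hp
    obtain ⟨hz, hw, hzw⟩ := hp
    simp only at hz hw hzw
    have hzx : z ≠ x := fun h => hxR (h ▸ hz)
    have hwx : w ≠ x := fun h => hxR (h ▸ hw)
    have hzy : z ≠ y := fun h => hyR (h ▸ hz)
    have hwy : w ≠ y := fun h => hyR (h ▸ hw)
    simp only [term]
    have e2 : cc c x y z = c z := by rw [cc, Function.update_of_ne hzx]
    have e3 : cc c x y w = c w := by rw [cc, Function.update_of_ne hwx]
    rw [e2, e3, sum_cc_erase, sum_cc_erase, sum_erase2 c hxy (N f (insert y (insert x R)) z w)]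
    have hx1 : x ∈ N f (insert x R) z w ↔ x ∈ N f (insert y (insert x R)) z w := by
      rw [mem_N, mem_N]; simp
    have hx2 : x ∈ N (conj x y f) (insert x R) z w ↔ y ∈ N f (insert y (insert x R)) z w := by
      rw [mem_N, mem_N, conj, image3, Equiv.swap_apply_left, swap_fix hzx hzy, swap_fix hwx hwy,
        ne_eq, ne_eq, Equiv.swap_apply_eq_iff, Equiv.swap_apply_left]
      simp [Ne.symm hzx, Ne.symm hwx, Ne.symm hzy, Ne.symm hwy]
    have hB1 : (N f (insert x R) z w).erase x
        = ((N f (insert y (insert x R)) z w).erase x).erase y := by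
      ext u
      simp only [mem_erase, mem_N, mem_insert]
      constructor
      · rintro ⟨hux, hu | hu, h⟩
        · exact absurd hu hux
        · exact ⟨fun e => hyR (e ▸ hu), hux, Or.inr (Or.inr hu), h⟩
      · rintro ⟨huy, hux, hu | hu | hu, h⟩
        · exact absurd hu huy
        · exact absurd hu hux
        · exact ⟨hux, Or.inr hu, h⟩
    have hB2 : (N (conj x y f) (insert x R) z w).erase x
        = ((N f (insert y (insert x R)) z w).erase x).erase y := by
      rw [← hB1]
      ext u
      simp only [mem_erase, mem_N, mem_insert]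
      by_cases hux : u = x
      · simp [hux]
      by_cases huR : u ∈ R
      swap
      · simp [hux, huR]
      have huy : u ≠ y := fun h => hyR (h ▸ huR)
      by_cases huz : u = z
      · simp [huz]
      by_cases huw : u = w
      · simp [huw]
      rw [conj, image3, swap_fix hzx hzy, swap_fix hwx hwy, swap_fix hux huy, ne_eq, ne_eq,
        Equiv.swap_apply_eq_iff, swap_fix hux huy]
    have hif1 : (if x ∈ N f (insert x R) z w then c x + c y else 0)
        = if x ∈ N f (insert y (insert x R)) z w then c x + c y else 0 := by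
      simp only [hx1]
    have hif2 : (if x ∈ N (conj x y f) (insert x R) z w then c x + c y else 0)
        = if y ∈ N f (insert y (insert x R)) z w then c x + c y else 0 := by
      simp only [hx2]
    rw [hB1, hB2, hif1, hif2]
    set B := ∑ u ∈ ((N f (insert y (insert x R)) z w).erase x).erase y, c u with hB
    have hJ := jensen (l := l) (hc x).le (hc y).le
      (n := B + (if x ∈ N f (insert y (insert x R)) z w then c x else 0)
        + (if y ∈ N f (insert y (insert x R)) z w then c y else 0))
      (n1 := B + (if x ∈ N f (insert y (insert x R)) z w then c x + c y else 0))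
      (n2 := B + (if y ∈ N f (insert y (insert x R)) z w then c x + c y else 0))
      (by split_ifs <;> ring)
    have hzw' : 0 ≤ c z * c w := (mul_pos (hc z) (hc w)).le
    have := mul_le_mul_of_nonneg_left hJ hzw'
    linarith
  have h5 := Finset.sum_le_sum h4
  rw [Finset.sum_add_distrib, ← Finset.mul_sum, ← Finset.mul_sum, ← Finset.mul_sum] at h5
  rw [h1, Finset.sum_congr rfl h2, Finset.sum_congr rfl h3, ← Finset.mul_sum, ← Finset.mul_sum]
  have h6 : ∑ z ∈ R, term l f (insert y (insert x R)) c (x, z)
      = c x * ∑ z ∈ R, c z * Real.exp (-(l * ∑ u ∈ N f (insert y (insert x R)) x z, c u)) := by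
    rw [Finset.mul_sum]
    apply Finset.sum_congr rfl
    intro z _
    simp only [term]
    ring
  have h7 : ∑ z ∈ R, term l f (insert y (insert x R)) c (y, z)
      = c y * ∑ z ∈ R, c z * Real.exp (-(l * ∑ u ∈ N f (insert y (insert x R)) y z, c u)) := by
    rw [Finset.mul_sum]
    apply Finset.sum_congr rfl
    intro z _
    simp only [term]
    ring
  rw [h6, h7]
  linarith

/-! ### Recursive choice functions -/

/-- The choice function is 2-recursive on a vertex set. -/
inductive Rec (f : Finset V → V) : Finset V → Prop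
  | small (A : Finset V) : A.card ≤ 2 → Rec f A
  | split (A B : Finset V) : A.Nonempty → B.Nonempty → Disjoint A B → 3 ≤ (A ∪ B).card →
      Rec f A → Rec f B →
      (∀ T ⊆ A ∪ B, T.card = 3 → (T ∩ A).card = 2 → f T ∈ B) →
      (∀ T ⊆ A ∪ B, T.card = 3 → (T ∩ B).card = 2 → f T ∈ A) → Rec f (A ∪ B)

theorem rec_ext_of_notMem {x y : V} {f : Finset V → V} {A : Finset V} (h : Rec f A)
    (hy : y ∉ A) : Rec (ext x y f) A := by
  induction h with
  | small A hA => exact Rec.small A hA
  | split A B hA hB hAB h3 _ _ h1 h2 ihA ihB =>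
    rw [mem_union, not_or] at hy
    refine Rec.split A B hA hB hAB h3 (ihA hy.1) (ihB hy.2) ?_ ?_
    · intro T hT hc hTA
      rw [ext_of_notMem]
      · exact h1 T hT hc hTA
      · intro h; have := hT h; rw [mem_union] at this; tauto
    · intro T hT hc hTB
      rw [ext_of_notMem]
      · exact h2 T hT hc hTB
      · intro h; have := hT h; rw [mem_union] at this; tauto

theorem card_inter_left {T A B : Finset V} (hAB : Disjoint A B) (hT : T ⊆ A ∪ B) :
    (T ∩ A).card + (T ∩ B).card = T.card := by
  rw [← Finset.card_union_of_disjoint, ← Finset.inter_union_distrib_left,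
    Finset.inter_eq_left.2 hT]
  exact Finset.disjoint_of_subset_left Finset.inter_subset_right
    (Finset.disjoint_of_subset_right Finset.inter_subset_right hAB)

theorem rec_split_ext {x y : V} (hxy : x ≠ y) {f : Finset V → V} {A B : Finset V}
    (hB : B.Nonempty) (hAB : Disjoint A B)
    (hx : x ∈ A) (hyA : y ∉ A) (hyB : y ∉ B)
    (h3 : 3 ≤ (A ∪ B).card)
    (h1 : ∀ T ⊆ A ∪ B, T.card = 3 → (T ∩ A).card = 2 → f T ∈ B)
    (h2 : ∀ T ⊆ A ∪ B, T.card = 3 → (T ∩ B).card = 2 → f T ∈ A)
    (rA : Rec (ext x y f) (insert y A)) (rB : Rec (ext x y f) B) :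
    Rec (ext x y f) (insert y A ∪ B) := by
  have hxB : x ∉ B := fun h => (Finset.disjoint_left.1 hAB hx) h
  have hdis : Disjoint (insert y A) B := by
    rw [Finset.disjoint_insert_left]; exact ⟨hyB, hAB⟩
  -- the image of a triple with `y` but without `x`
  have himg : ∀ T ⊆ insert y A ∪ B, T.card = 3 → y ∈ T → x ∉ T →
      (T.image (Equiv.swap x y) ⊆ A ∪ B ∧ (T.image (Equiv.swap x y)).card = 3 ∧
        (T.image (Equiv.swap x y) ∩ B) = T ∩ B) := by
    intro T hT hc hyT hxT
    refine ⟨?_, ?_, ?_⟩
    · intro u hu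
      rw [mem_image] at hu
      obtain ⟨v, hv, rfl⟩ := hu
      by_cases hvy : v = y
      · rw [hvy, Equiv.swap_apply_right]; simp [hx]
      · have hvx : v ≠ x := fun h => hxT (h ▸ hv)
        rw [swap_fix hvx hvy]
        have := hT hv
        simp only [mem_union, mem_insert, hvy, false_or] at this ⊢
        exact this
    · rw [Finset.card_image_of_injective _ (Equiv.injective _), hc]
    · ext u
      simp only [mem_inter, mem_image]
      constructor
      · rintro ⟨⟨v, hv, hvu⟩, hu⟩
        have hux : u ≠ x := fun h => hxB (h ▸ hu)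
        have huy : u ≠ y := fun h => hyB (h ▸ hu)
        have : v = u := by
          rw [Equiv.swap_apply_eq_iff, swap_fix hux huy] at hvu
          exact hvu
        exact ⟨this ▸ hv, hu⟩
      · rintro ⟨hv, hu⟩
        have hux : u ≠ x := fun h => hxB (h ▸ hu)
        have huy : u ≠ y := fun h => hyB (h ▸ hu)
        exact ⟨⟨u, hv, swap_fix hux huy⟩, hu⟩
  refine Rec.split (insert y A) B ⟨y, by simp⟩ hB hdis ?_ rA rB ?_ ?_
  · refine h3.trans (Finset.card_le_card ?_)
    exact Finset.union_subset_union_left (Finset.subset_insert _ _)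
  · intro T hT hc hTA
    have hTB : (T ∩ B).card = 1 := by
      have := card_inter_left hdis hT
      omega
    by_cases hyT : y ∈ T
    · by_cases hxT : x ∈ T
      · obtain ⟨z, hz⟩ := Finset.card_pos.1 (show 0 < (T ∩ B).card by omega)
        rw [mem_inter] at hz
        have hzx : z ≠ x := fun h => hxB (h ▸ hz.2)
        have hzy : z ≠ y := fun h => hyB (h ▸ hz.2)
        have hTe : T = {x, y, z} := by
          symm
          apply Finset.eq_of_subset_of_card_le
          · intro u hu
            simp only [mem_insert, mem_singleton] at hu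
            rcases hu with rfl | rfl | rfl
            · exact hxT
            · exact hyT
            · exact hz.1
          · rw [hc, Finset.card_eq_three.2 ⟨x, y, z, hxy, hzx.symm, hzy.symm, rfl⟩]
        rw [hTe, ext_both hzx hzy]
        exact hz.2
      · obtain ⟨i1, i2, i3⟩ := himg T hT hc hyT hxT
        rw [ext_clone hyT hxT]
        have i4 : (T.image (Equiv.swap x y) ∩ A).card = 2 := by
          have := card_inter_left hAB i1
          rw [i3] at this
          omega
        have := h1 _ i1 i2 i4
        have k1 : f (T.image (Equiv.swap x y)) ≠ x := fun h => hxB (h ▸ this)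
        have k2 : f (T.image (Equiv.swap x y)) ≠ y := fun h => hyB (h ▸ this)
        rw [swap_fix k1 k2]
        exact this
    · rw [ext_of_notMem hyT]
      have hT' : T ⊆ A ∪ B := by
        intro u hu
        have := hT hu
        simp only [mem_union, mem_insert] at this ⊢
        rcases this with (h | h) | h
        · exact absurd (h ▸ hu) hyT
        · exact Or.inl h
        · exact Or.inr h
      apply h1 T hT' hc
      have := card_inter_left hAB hT'
      omega
  · intro T hT hc hTB
    by_cases hyT : y ∈ T
    · have hxT : x ∉ T := by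
        intro hxT
        have h4 : ({x, y} : Finset V) ⊆ T ∩ insert y A := by
          intro u hu
          simp only [mem_insert, mem_singleton] at hu
          rcases hu with rfl | rfl
          · simp [hxT, hx]
          · simp [hyT]
        have h5 := Finset.card_le_card h4
        rw [Finset.card_pair hxy] at h5
        have := card_inter_left hdis hT
        omega
      obtain ⟨i1, i2, i3⟩ := himg T hT hc hyT hxT
      rw [ext_clone hyT hxT]
      have := h2 _ i1 i2 (by rw [i3]; exact hTB)
      by_cases hfx : f (T.image (Equiv.swap x y)) = x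
      · rw [hfx, Equiv.swap_apply_left]; simp
      · have k2 : f (T.image (Equiv.swap x y)) ≠ y := fun h => hyA (h ▸ this)
        rw [swap_fix hfx k2]
        exact mem_insert_of_mem this
    · rw [ext_of_notMem hyT]
      have hT' : T ⊆ A ∪ B := by
        intro u hu
        have := hT hu
        simp only [mem_union, mem_insert] at this ⊢
        rcases this with (h | h) | h
        · exact absurd (h ▸ hu) hyT
        · exact Or.inl h
        · exact Or.inr h
      exact mem_insert_of_mem (h2 T hT' hc hTB)

theorem rec_ext {x y : V} (hxy : x ≠ y) {f : Finset V → V} {A : Finset V} (h : Rec f A)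
    (hx : x ∈ A) (hy : y ∉ A) : Rec (ext x y f) (insert y A) := by
  induction h with
  | small A hA =>
    by_cases hc : (insert y A).card ≤ 2
    · exact Rec.small _ hc
    · rw [Finset.card_insert_of_notMem hy] at hc
      have hA2 : A.card = 2 := by omega
      have hc1 : (A.erase x).card = 1 := by rw [Finset.card_erase_of_mem hx, hA2]
      obtain ⟨a, ha⟩ := Finset.card_eq_one.1 hc1
      have hAe : A = {x, a} := by rw [← Finset.insert_erase hx, ha]
      have hax : a ≠ x := by
        have : a ∈ A.erase x := by rw [ha]; simp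
        exact (Finset.mem_erase.1 this).1
      have hay : a ≠ y := by
        rintro rfl
        apply hy
        rw [hAe]; simp
      have e : insert y A = ({x, y} : Finset V) ∪ {a} := by
        rw [hAe]; ext u; simp; tauto
      rw [e]
      have hc3 : (({x, y} : Finset V) ∪ {a}).card = 3 := by
        rw [← e, Finset.card_insert_of_notMem hy, hA2]
      refine Rec.split {x, y} {a} ⟨x, by simp⟩ ⟨a, by simp⟩ ?_ hc3.ge
        (Rec.small _ (by rw [Finset.card_pair hxy])) (Rec.small _ (by simp)) ?_ ?_
      · simp [hax, hay]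
      · intro T hT hTc _
        have hTe : T = ({x, y, a} : Finset V) := by
          have : T = ({x, y} : Finset V) ∪ {a} :=
            Finset.eq_of_subset_of_card_le hT (by rw [hTc, hc3])
          rw [this]; ext u; simp
        rw [hTe, ext_both hax hay]
        simp
      · intro T _ _ h2
        have := Finset.card_le_card (Finset.inter_subset_right (s₁ := T) (s₂ := {a}))
        rw [h2, Finset.card_singleton] at this
        omega
  | split A B hA hB hAB h3 rA rB h1 h2 ihA ihB =>
    rw [mem_union, not_or] at hy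
    rw [mem_union] at hx
    rcases hx with hx | hx
    · rw [← Finset.insert_union]
      exact rec_split_ext hxy hB hAB hx hy.1 hy.2 h3 h1 h2 (ihA hx hy.1)
        (rec_ext_of_notMem rB hy.2)
    · rw [Finset.union_comm A B, ← Finset.insert_union]
      refine rec_split_ext hxy hA hAB.symm hx hy.2 hy.1 (by rwa [Finset.union_comm B A]) ?_ ?_
        (ihB hx hy.2) (rec_ext_of_notMem rA hy.1)
      · intro T hT; rw [Finset.union_comm B A] at hT; exact h2 T hT
      · intro T hT; rw [Finset.union_comm B A] at hT; exact h1 T hT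

/-- The weighted form of the theorem. -/
theorem main {l : ℝ} (hl : 0 < l) (n : ℕ) : ∀ (S : Finset V), S.card = n → ∀ (c : V → ℝ),
    (∀ v, 0 < c v) → ∀ f : Finset V → V, Valid f →
      ∃ g : Finset V → V, Valid g ∧ Rec g S ∧ W l f S c ≤ W l g S c := by
  classical
  induction n with
  | zero =>
    intro S hS c _ f hf
    exact ⟨f, hf, Rec.small _ (by omega), le_rfl⟩
  | succ n ih =>
    intro S hS c hc f hf
    by_cases hn : n + 1 ≤ 2
    · exact ⟨f, hf, Rec.small _ (by omega), le_rfl⟩
    obtain ⟨f0, hf0, hmax⟩ := Finset.exists_max_image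
      (Finset.univ.filter fun g : Finset V → V => Valid g) (fun g => W l g S c)
      ⟨f, by simp [hf]⟩
    simp only [mem_filter, mem_univ, true_and] at hf0 hmax
    obtain ⟨x, hx, y, hy, hxy, hch⟩ := cherry hl hf0 hc hmax (by omega)
    set R := (S.erase x).erase y with hR
    have hxR : x ∉ R := by rw [hR]; simp
    have hyR : y ∉ R := by rw [hR]; simp
    have hSe : S = insert y (insert x R) := by
      rw [hR]
      ext u
      simp only [mem_insert, mem_erase]
      constructor
      · intro hu
        by_cases h1 : u = y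
        · exact Or.inl h1
        by_cases h2 : u = x
        · exact Or.inr (Or.inl h2)
        exact Or.inr (Or.inr ⟨h1, h2, hu⟩)
      · rintro (h | h | h)
        · exact h ▸ hy
        · exact h ▸ hx
        · exact h.2.2
    have hchR : ∀ z ∈ R, f0 {x, y, z} = z := by
      intro z hz
      rw [hR] at hz
      simp only [mem_erase] at hz
      exact hch z hz.2.2 hz.2.1 hz.1
    have hS' : (insert x R).card = n := by
      have : y ∉ insert x R := by simp [hxy.symm, hyR]
      have h2 := Finset.card_insert_of_notMem this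
      rw [← hSe, hS] at h2
      omega
    have hcl := W_clone (l := l) hxy hxR hyR hc hchR
    rw [← hSe] at hcl
    have hcc : ∀ v, 0 < cc c x y v := by
      intro v
      rw [cc]
      by_cases hv : v = x
      · rw [hv, Function.update_self]; exact add_pos (hc x) (hc y)
      · rw [Function.update_of_ne hv]; exact hc v
    have hcxy : 0 < c x + c y := add_pos (hc x) (hc y)
    have hex : ∃ f1 : Finset V → V, Valid f1 ∧ W l f0 S c
        - 2 * (c x * c y * Real.exp (-(l * (c x + c y)))) ≤ W l f1 (insert x R) (cc c x y) := by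
      by_contra hcon
      push Not at hcon
      have a1 := hcon f0 hf0
      have a2 := hcon (conj x y f0) (clone_valid x y hf0)
      have b1 := mul_lt_mul_of_pos_left a1 (hc x)
      have b2 := mul_lt_mul_of_pos_left a2 (hc y)
      linarith
    obtain ⟨f1, hf1, hW1⟩ := hex
    obtain ⟨g, hg, hrec, hWg⟩ := ih (insert x R) hS' (cc c x y) hcc f1 hf1
    refine ⟨ext x y g, ext_valid hxy hg, ?_, ?_⟩
    · rw [hSe]
      exact rec_ext hxy hrec (by simp) (by simp [hxy.symm, hyR])
    · have h1 := hmax f hf
      have h2 := W_ext l hxy g hxR hyR c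
      rw [← hSe] at h2
      rw [h2]
      linarith

end internal

/-! ### Triangular choice multigraphs -/

/-- A triangular choice multigraph (TCM) on `V`: for every 3-element subset `T` of `V` a 2-element
subset `sel T` of `T` (the selected pair). -/
structure TCM (V : Type) where
  /-- the selected pair -/
  sel : {T : Finset V // T.card = 3} → Finset V
  sel_subset : ∀ T, sel T ⊆ T.1
  card_sel : ∀ T, (sel T).card = 2

section multigraphs

variable {V : Type} [Fintype V] [DecidableEq V]

/-- The multiplicity of a pair: the number of 3-element sets that select it. -/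
def TCM.mult (G : TCM V) (P : Finset V) : ℕ :=
  (Finset.univ.filter fun T : {T : Finset V // T.card = 3} => G.sel T = P).card

/-- The weight: the sum over all pairs of `α` to the multiplicity of the pair. -/
noncomputable def TCM.w (G : TCM V) (α : ℝ) : ℝ :=
  ∑ P ∈ (Finset.univ : Finset V).powersetCard 2, α ^ G.mult P

/-- `G.TwoRecOn A`: the triples contained in `A` make selections that form a 2-recursive TCM
on `A`. -/
inductive TCM.TwoRecOn (G : TCM V) : Finset V → Prop
  | small (A : Finset V) : A.card ≤ 2 → TCM.TwoRecOn G A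
  | split (A B : Finset V) : A.Nonempty → B.Nonempty → Disjoint A B → 3 ≤ (A ∪ B).card →
      TCM.TwoRecOn G A → TCM.TwoRecOn G B →
      (∀ T : {T : Finset V // T.card = 3}, T.1 ⊆ A ∪ B → (T.1 ∩ A).card = 2 →
        G.sel T = T.1 ∩ A) →
      (∀ T : {T : Finset V // T.card = 3}, T.1 ⊆ A ∪ B → (T.1 ∩ B).card = 2 →
        G.sel T = T.1 ∩ B) →
      TCM.TwoRecOn G (A ∪ B)

/-- The TCM is 2-recursive. -/
def TCM.TwoRecursive (G : TCM V) : Prop := G.TwoRecOn Finset.univ

/-- The choice function describes the TCM. -/
def Desc (G : TCM V) (f : Finset V → V) : Prop :=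
  ∀ T : {T : Finset V // T.card = 3}, G.sel T = T.1.erase (f T.1)

theorem exists_desc [Nonempty V] (G : TCM V) : ∃ f : Finset V → V, Valid f ∧ Desc G f := by
  classical
  have h : ∀ T : {T : Finset V // T.card = 3}, ∃ z ∈ T.1, z ∉ G.sel T := by
    intro T
    by_contra hcon
    push Not at hcon
    have h1 : T.1 ⊆ G.sel T := hcon
    have h2 := Finset.card_le_card h1
    rw [G.card_sel, T.2] at h2
    omega
  choose z hz hz' using h
  refine ⟨fun T => if hT : T.card = 3 then z ⟨T, hT⟩ else Classical.arbitrary V, ?_, ?_⟩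
  · intro T hT
    simp only [hT, dif_pos]
    exact hz ⟨T, hT⟩
  · intro T
    simp only [T.2, dif_pos]
    apply Finset.eq_of_subset_of_card_le
    · intro u hu
      rw [mem_erase]
      exact ⟨fun h => hz' T (h ▸ hu), G.sel_subset T hu⟩
    · rw [G.card_sel, Finset.card_erase_of_mem (hz T), T.2]

/-- The TCM of a choice function. -/
def ofFun (f : Finset V → V) (hf : Valid f) : TCM V where
  sel T := T.1.erase (f T.1)
  sel_subset T := Finset.erase_subset _ _
  card_sel T := by rw [Finset.card_erase_of_mem (hf _ T.2), T.2]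

theorem mult_add {G : TCM V} {f : Finset V → V} (hf : Valid f) (hG : Desc G f) {x y : V}
    (hxy : x ≠ y) : G.mult {x, y} + (N f Finset.univ x y).card = Fintype.card V := by
  classical
  have h : G.mult {x, y} = ((N f Finset.univ x y)ᶜ).card := by
    rw [TCM.mult]
    symm
    have hne : ∀ z ∈ (N f Finset.univ x y)ᶜ, z ≠ x ∧ z ≠ y ∧ f {x, y, z} = z := by
      intro z hz
      rw [mem_compl, mem_N] at hz
      simp only [mem_univ, true_and, not_or, not_not] at hz
      exact hz
    refine Finset.card_bij (fun z hz => ⟨{x, y, z}, Finset.card_eq_three.2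
      ⟨x, y, z, hxy, (hne z hz).1.symm, (hne z hz).2.1.symm, rfl⟩⟩) ?_ ?_ ?_
    · intro z hz
      obtain ⟨h1, h2, h3⟩ := hne z hz
      rw [mem_filter]
      refine ⟨mem_univ _, ?_⟩
      rw [hG]
      simp only [h3]
      ext u
      simp only [mem_erase, mem_insert, mem_singleton]
      constructor
      · rintro ⟨hu, h | h | h⟩
        · exact Or.inl h
        · exact Or.inr h
        · exact absurd h hu
      · rintro (h | h)
        · exact ⟨fun e => h1 (e.symm.trans h), Or.inl h⟩
        · exact ⟨fun e => h2 (e.symm.trans h), Or.inr (Or.inl h)⟩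
    · intro z hz w hw hzw
      obtain ⟨h1, h2, h3⟩ := hne z hz
      have h4 : ({x, y, z} : Finset V) = {x, y, w} := congrArg Subtype.val hzw
      have h5 : z ∈ ({x, y, w} : Finset V) := by rw [← h4]; simp
      simp only [mem_insert, mem_singleton] at h5
      tauto
    · intro T hT
      rw [mem_filter] at hT
      have h1 := hT.2
      rw [hG] at h1
      have h2 := hf T.1 T.2
      have h3 : T.1 = {x, y, f T.1} := by
        conv_lhs => rw [← Finset.insert_erase h2, h1]
        ext u; simp; tauto
      have h4 : f T.1 ∉ ({x, y} : Finset V) := by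
        rw [← h1]; simp
      simp only [mem_insert, mem_singleton, not_or] at h4
      refine ⟨f T.1, ?_, ?_⟩
      · rw [mem_compl, mem_N]
        simp only [mem_univ, true_and, not_or, not_not]
        refine ⟨h4.1, h4.2, ?_⟩
        rw [← h3]
      · apply Subtype.ext
        exact h3.symm
  rw [h, add_comm]
  exact Finset.card_add_card_compl _

theorem sum_pairs (F : Finset V → ℝ) :
    ∑ p ∈ (Finset.univ : Finset V).offDiag, F {p.1, p.2}
      = 2 * ∑ P ∈ (Finset.univ : Finset V).powersetCard 2, F P := by
  classical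
  have hmaps : ∀ p ∈ (Finset.univ : Finset V).offDiag,
      ({p.1, p.2} : Finset V) ∈ (Finset.univ : Finset V).powersetCard 2 := by
    intro p hp
    rw [mem_offDiag] at hp
    rw [mem_powersetCard]
    exact ⟨Finset.subset_univ _, Finset.card_pair hp.2.2⟩
  rw [← Finset.sum_fiberwise_of_maps_to hmaps, Finset.mul_sum]
  apply Finset.sum_congr rfl
  intro P hP
  rw [mem_powersetCard] at hP
  obtain ⟨a, b, hab, rfl⟩ := Finset.card_eq_two.1 hP.2
  have hfil : ((Finset.univ : Finset V).offDiag.filter fun p => ({p.1, p.2} : Finset V) = {a, b})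
      = {(a, b), (b, a)} := by
    ext ⟨u, v⟩
    simp only [mem_filter, mem_offDiag, mem_univ, true_and, mem_insert, mem_singleton,
      Prod.mk.injEq]
    constructor
    · rintro ⟨huv, h⟩
      have h1 : u ∈ ({a, b} : Finset V) := by rw [← h]; simp
      have h2 : v ∈ ({a, b} : Finset V) := by rw [← h]; simp
      simp only [mem_insert, mem_singleton] at h1 h2
      rcases h1 with h1 | h1 <;> rcases h2 with h2 | h2
      · exact absurd (h1.trans h2.symm) huv
      · exact Or.inl ⟨h1, h2⟩
      · exact Or.inr ⟨h1, h2⟩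
      · exact absurd (h1.trans h2.symm) huv
    · rintro (⟨rfl, rfl⟩ | ⟨rfl, rfl⟩)
      · exact ⟨hab, rfl⟩
      · exact ⟨hab.symm, Finset.pair_comm _ _⟩
  rw [hfil, Finset.sum_pair (by simp [hab])]
  simp only
  rw [Finset.pair_comm b a]
  ring

theorem w_eq {G : TCM V} {f : Finset V → V} (hf : Valid f) (hG : Desc G f) {α : ℝ}
    (hα : 1 < α) :
    2 * G.w α = α ^ Fintype.card V * W (Real.log α) f Finset.univ (fun _ => 1) := by
  rw [TCM.w, ← sum_pairs, W, Finset.mul_sum]
  apply Finset.sum_congr rfl
  rintro ⟨x, y⟩ hp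
  rw [mem_offDiag] at hp
  have hxy : x ≠ y := hp.2.2
  simp only [term, mul_one, one_mul, Finset.sum_const, nsmul_eq_mul]
  rw [← mult_add hf hG hxy, pow_add, mul_assoc]
  have h0 : (0 : ℝ) < α := by linarith
  have : α ^ (N f Finset.univ x y).card
      * Real.exp (-(Real.log α * ((N f Finset.univ x y).card : ℝ))) = 1 := by
    rw [Real.exp_neg, mul_comm (Real.log α), Real.exp_nat_mul, Real.exp_log h0]
    exact mul_inv_cancel₀ (by positivity)
  rw [this, mul_one]

theorem twoRecOn_of_rec {G : TCM V} {f : Finset V → V} (hG : Desc G f) {A : Finset V}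
    (h : Rec f A) : G.TwoRecOn A := by
  have aux : ∀ (A B : Finset V), Disjoint A B → ∀ T : {T : Finset V // T.card = 3},
      (T.1 ∩ A).card = 2 → f T.1 ∈ B → G.sel T = T.1 ∩ A := by
    intro A B hAB T hc hf
    symm
    apply Finset.eq_of_subset_of_card_le
    · intro u hu
      rw [mem_inter] at hu
      rw [hG, mem_erase]
      refine ⟨fun e => Finset.disjoint_left.1 hAB hu.2 (e ▸ hf), hu.1⟩
    · rw [hc, G.card_sel]
  induction h with
  | small A hA => exact TCM.TwoRecOn.small A hA
  | split A B hA hB hAB h3 _ _ h1 h2 ihA ihB =>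
    refine TCM.TwoRecOn.split A B hA hB hAB h3 ihA ihB ?_ ?_
    · intro T hT hc
      exact aux A B hAB T hc (h1 T.1 hT T.2 hc)
    · intro T hT hc
      exact aux B A hAB.symm T hc (h2 T.1 hT T.2 hc)

/-- Some 2-recursive TCM is optimal. -/
theorem exists_optimal [Nonempty V] {α : ℝ} (hα : 1 < α) :
    ∃ G : TCM V, G.TwoRecursive ∧ ∀ G' : TCM V, G'.w α ≤ G.w α := by
  classical
  have hl : 0 < Real.log α := Real.log_pos hα
  have hne : ∃ f : Finset V → V, Valid f := by
    have h : ∀ T : Finset V, ∃ z : V, T.card = 3 → z ∈ T := by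
      intro T
      by_cases hT : T.card = 3
      · obtain ⟨z, hz⟩ := Finset.card_pos.1 (show 0 < T.card by omega)
        exact ⟨z, fun _ => hz⟩
      · exact ⟨Classical.arbitrary V, fun h => absurd h hT⟩
    choose f hf using h
    exact ⟨f, fun T hT => hf T hT⟩
  obtain ⟨f, hf⟩ := hne
  obtain ⟨f0, hf0, hmax⟩ := Finset.exists_max_image
    (Finset.univ.filter fun g : Finset V → V => Valid g)
    (fun g => W (Real.log α) g Finset.univ (fun _ => 1)) ⟨f, by simp [hf]⟩
  simp only [mem_filter, mem_univ, true_and] at hf0 hmax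
  obtain ⟨g, hg, hrec, hW⟩ := main hl _ Finset.univ rfl (fun _ => 1) (fun _ => one_pos) f0 hf0
  have hGd : Desc (ofFun g hg) g := fun T => rfl
  refine ⟨ofFun g hg, twoRecOn_of_rec hGd hrec, ?_⟩
  intro G'
  obtain ⟨f', hf', hd'⟩ := exists_desc G'
  have h1 := w_eq hf' hd' hα
  have h2 := w_eq hg hGd hα
  have h3 := (hmax f' hf').trans hW
  have h4 : 0 ≤ α ^ Fintype.card V := by positivity
  have h5 := mul_le_mul_of_nonneg_left h3 h4
  linarith

end multigraphs

/-- `H m α`: the maximum of the weight over all TCMs on `m` vertices. -/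
noncomputable def H (m : ℕ) (α : ℝ) : ℝ := sSup {t : ℝ | ∃ G : TCM (Fin m), G.w α = t}

/-- `H₂ m α`: the maximum of the weight over the 2-recursive TCMs on `m` vertices. -/
noncomputable def H₂ (m : ℕ) (α : ℝ) : ℝ :=
  sSup {t : ℝ | ∃ G : TCM (Fin m), G.TwoRecursive ∧ G.w α = t}

/-- For all `m ≥ 3` and all real `α > 1` the maximum of the weight over all TCMs on `m` vertices is
equal to the maximum over the 2-recursive ones; both maxima are attained, by one and the same
2-recursive TCM. -/
theorem result (m : ℕ) (hm : 3 ≤ m) (α : ℝ) (hα : 1 < α) :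
    H m α = H₂ m α ∧
      ∃ G : TCM (Fin m), G.TwoRecursive ∧ G.w α = H m α ∧ ∀ G' : TCM (Fin m), G'.w α ≤ G.w α := by
  have : Nonempty (Fin m) := ⟨⟨0, by omega⟩⟩
  obtain ⟨G, hG, hmax⟩ := exists_optimal (V := Fin m) hα
  have h1 : IsGreatest {t : ℝ | ∃ G : TCM (Fin m), G.w α = t} (G.w α) := by
    refine ⟨⟨G, rfl⟩, ?_⟩
    rintro t ⟨G', rfl⟩
    exact hmax G'
  have h2 : IsGreatest {t : ℝ | ∃ G : TCM (Fin m), G.TwoRecursive ∧ G.w α = t} (G.w α) := by
    refine ⟨⟨G, hG, rfl⟩, ?_⟩
    rintro t ⟨G', _, rfl⟩
    exact hmax G'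
  refine ⟨?_, G, hG, ?_, hmax⟩
  · rw [H, H₂, h1.csSup_eq, h2.csSup_eq]
  · rw [H, h1.csSup_eq]

end Pool.Agent.Results.MP_6dfbfb_co.TwoRecursiveOptimal
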